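import Pool.Agent.H11.NY.Targets

/-!
# Module AF2 of the board ny_modules (MP_9b2842_al)
-/

set_option autoImplicit false

open Equiv (Perm)

namespace Pool.Agent.H21.NY.AF2

open Pool.Agent.H11.NY

section core

variable {Q : Type} [Group Q] {M A : Subgroup Q}

/-- the fixed points of `t` form a coset of the centralizer of `t` in `A` -/
theorem F1 (hAn : A.Normal) (hab : ∀ x ∈ A, ∀ y ∈ A, x * y = y * x)
    (hAM : ∀ x ∈ A, x ∈ M → x = 1) {t x0 x : Q} (hx0 : x0 ∈ A) (hx : x ∈ A)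
    (h0 : x0⁻¹ * t * x0 ∈ M) : (x0 * x)⁻¹ * t * (x0 * x) ∈ M ↔ t * x = x * t := by
  have hc : x0 * x = x * x0 := hab _ hx0 _ hx
  constructor
  · intro h1
    have h2 : (x0⁻¹ * t * x0)⁻¹ * ((x0 * x)⁻¹ * t * (x0 * x)) ∈ M :=
      M.mul_mem (M.inv_mem h0) h1
    have h3 : (x0⁻¹ * t * x0)⁻¹ * ((x0 * x)⁻¹ * t * (x0 * x)) =
        ((x0⁻¹ * t * x0)⁻¹ * x⁻¹ * ((x0⁻¹ * t * x0)⁻¹)⁻¹) * x := by group
    have h4 : (x0⁻¹ * t * x0)⁻¹ * ((x0 * x)⁻¹ * t * (x0 * x)) ∈ A := by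
      rw [h3]
      exact A.mul_mem (hAn.conj_mem _ (A.inv_mem hx) _) hx
    have h5 := hAM _ h4 h2
    have h6 : x0⁻¹ * t * x0 = (x0 * x)⁻¹ * t * (x0 * x) := (inv_mul_eq_one.1 h5)
    have h7 : (x0 * x)⁻¹ * t * (x0 * x) = x0⁻¹ * (x⁻¹ * t * x) * x0 := by
      rw [hc]
      group
    rw [h7] at h6
    have h8 : t = x⁻¹ * t * x := mul_left_cancel (mul_right_cancel h6)
    calc t * x = x * (x⁻¹ * t * x) := by group
      _ = x * t := by rw [← h8]
  · intro h1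
    have h2 : (x0 * x)⁻¹ * t * (x0 * x) = x0⁻¹ * t * x0 := by
      rw [hc, mul_inv_rev]
      have h3 : x⁻¹ * t * x = t := by rw [mul_assoc, h1, inv_mul_cancel_left]
      calc x0⁻¹ * x⁻¹ * t * (x * x0) = x0⁻¹ * (x⁻¹ * t * x) * x0 := by group
        _ = x0⁻¹ * t * x0 := by rw [h3]
    rw [h2]
    exact h0

/-- an element with a fixed point which centralizes `A` is trivial -/
theorem F2 (hAn : A.Normal) (hab : ∀ x ∈ A, ∀ y ∈ A, x * y = y * x)
    (hAM : ∀ x ∈ A, x ∈ M → x = 1) (hL : ∀ y : Q, ∃ x ∈ A, x⁻¹ * y ∈ M)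
    (hcore : ∀ t : Q, (∀ x, x⁻¹ * t * x ∈ M) → t = 1) {t x0 : Q} (hx0 : x0 ∈ A)
    (h0 : x0⁻¹ * t * x0 ∈ M) (hc : ∀ x ∈ A, t * x = x * t) : t = 1 := by
  apply hcore
  intro y
  obtain ⟨x, hx, hm⟩ := hL y
  have h1 : x0⁻¹ * x ∈ A := A.mul_mem (A.inv_mem hx0) hx
  have h2 := (F1 hAn hab hAM hx0 h1 h0).2 (hc _ h1)
  have h3 : x0 * (x0⁻¹ * x) = x := by group
  rw [h3] at h2
  have h4 : y⁻¹ * t * y = (x⁻¹ * y)⁻¹ * (x⁻¹ * t * x) * (x⁻¹ * y) := by group
  rw [h4]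
  exact M.mul_mem (M.mul_mem (M.inv_mem hm) h2) hm

/-- coprimeness -/
theorem F3 {q r : ℕ} (hq : q.Prime) (hr : r.Prime) (hqr : q ≠ r) {t v w : Q}
    (ht : t ^ q = 1) (hw : t * w = w * t) (hv : t * v = v * w * t)
    (hwr : ∃ k : ℕ, w ^ (r ^ k) = 1) : w = 1 := by
  have h1 : ∀ k : ℕ, t ^ k * v = v * w ^ k * t ^ k := by
    intro k
    induction k with
    | zero => simp
    | succ k ih =>
      have h2 : t * w ^ k = w ^ k * t := ((show Commute t w from hw).pow_right k).eq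
      calc t ^ (k + 1) * v = t * (t ^ k * v) := by rw [pow_succ', mul_assoc]
        _ = t * (v * w ^ k * t ^ k) := by rw [ih]
        _ = (t * v) * w ^ k * t ^ k := by group
        _ = v * w * t * w ^ k * t ^ k := by rw [hv]
        _ = v * w * (t * w ^ k) * t ^ k := by group
        _ = v * w * (w ^ k * t) * t ^ k := by rw [h2]
        _ = v * (w * w ^ k) * (t * t ^ k) := by group
        _ = v * w ^ (k + 1) * t ^ (k + 1) := by rw [← pow_succ', ← pow_succ']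
  have h2 := h1 q
  rw [ht, one_mul, mul_one] at h2
  have h3 : w ^ q = 1 := by
    have : v * w ^ q = v * 1 := by rw [mul_one]; exact h2.symm
    exact mul_left_cancel this
  obtain ⟨k, hk⟩ := hwr
  have h4 : orderOf w ∣ q := orderOf_dvd_of_pow_eq_one h3
  have h5 : orderOf w ∣ r ^ k := orderOf_dvd_of_pow_eq_one hk
  have h6 : Nat.Coprime q (r ^ k) := Nat.Coprime.pow_right k ((Nat.coprime_primes hq hr).2 hqr)
  have h7 : orderOf w = 1 := Nat.dvd_one.1 (h6 ▸ Nat.dvd_gcd h4 h5)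
  exact orderOf_eq_one_iff.1 h7

/-- the centralizer of `t` in `A` -/
def cen (A : Subgroup Q) (t : Q) : Subgroup A := (Subgroup.centralizer {t}).subgroupOf A

theorem mem_cen {t : Q} {x : A} : x ∈ cen A t ↔ t * (x : Q) = x * t := by
  rw [cen, Subgroup.mem_subgroupOf, Subgroup.mem_centralizer_singleton_iff, eq_comm]

/-- an element all of whose `A`-conjugates are in `M` is trivial -/
theorem F0 (hL : ∀ y : Q, ∃ x ∈ A, x⁻¹ * y ∈ M)
    (hcore : ∀ t : Q, (∀ x, x⁻¹ * t * x ∈ M) → t = 1) {t : Q}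
    (h0 : ∀ x ∈ A, x⁻¹ * t * x ∈ M) : t = 1 := by
  apply hcore
  intro y
  obtain ⟨x, hx, hm⟩ := hL y
  have h4 : y⁻¹ * t * y = (x⁻¹ * y)⁻¹ * (x⁻¹ * t * x) * (x⁻¹ * y) := by group
  rw [h4]
  exact M.mul_mem (M.mul_mem (M.inv_mem hm) (h0 x hx)) hm

/-- case 2 -/
theorem C2 [Finite Q] {r q : ℕ} (hr : r.Prime) (hq : q.Prime) (hqr : q ≠ r)
    (hAn : A.Normal) (hab : ∀ x ∈ A, ∀ y ∈ A, x * y = y * x)
    (hpA : ∀ x ∈ A, ∃ k : ℕ, x ^ (r ^ k) = 1)
    (hAM : ∀ x ∈ A, x ∈ M → x = 1) (hL : ∀ y : Q, ∃ x ∈ A, x⁻¹ * y ∈ M)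
    (hcore : ∀ t : Q, (∀ x, x⁻¹ * t * x ∈ M) → t = 1) {a h : Q} (haq : a ^ q = 1)
    (hcov : ∀ x ∈ A, x⁻¹ * a * x ∈ M ∨ x⁻¹ * h * x ∈ M) : a = 1 ∨ h = 1 := by
  by_contra hcon
  push Not at hcon
  obtain ⟨ha1, hh1⟩ := hcon
  obtain ⟨x1, hx1, hx1M⟩ : ∃ x ∈ A, x⁻¹ * a * x ∈ M := by
    by_contra h1
    push Not at h1
    exact hh1 (F0 hL hcore fun x hx => (hcov x hx).resolve_left (h1 x hx))
  obtain ⟨x2, hx2, hx2M⟩ : ∃ x ∈ A, x⁻¹ * h * x ∈ M := by
    by_contra h1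
    push Not at h1
    exact ha1 (F0 hL hcore fun x hx => (hcov x hx).resolve_right (h1 x hx))
  have hC1 : cen A a ≠ ⊤ := by
    intro h1
    refine ha1 (F2 hAn hab hAM hL hcore hx1 hx1M fun x hx => ?_)
    exact mem_cen.1 (h1 ▸ Subgroup.mem_top (⟨x, hx⟩ : A))
  have hC2 : cen A h ≠ ⊤ := by
    intro h1
    refine hh1 (F2 hAn hab hAM hL hcore hx2 hx2M fun x hx => ?_)
    exact mem_cen.1 (h1 ▸ Subgroup.mem_top (⟨x, hx⟩ : A))
  have hcard : Nat.card A ≤ Nat.card (cen A a) + Nat.card (cen A h) := by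
    have h1 : (Set.univ : Set A) ⊆ ((fun y : A => (⟨x1, hx1⟩ : A) * y) '' (cen A a : Set A)) ∪
        ((fun y : A => (⟨x2, hx2⟩ : A) * y) '' (cen A h : Set A)) := by
      intro x _
      rcases hcov x x.2 with h2 | h2
      · left
        refine ⟨(⟨x1, hx1⟩ : A)⁻¹ * x, ?_, mul_inv_cancel_left _ _⟩
        rw [SetLike.mem_coe, mem_cen]
        have h3 : x1⁻¹ * (x : Q) ∈ A := A.mul_mem (A.inv_mem hx1) x.2
        have h4 := (F1 hAn hab hAM hx1 h3 hx1M).1 (by rw [mul_inv_cancel_left]; exact h2)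
        simpa using h4
      · right
        refine ⟨(⟨x2, hx2⟩ : A)⁻¹ * x, ?_, mul_inv_cancel_left _ _⟩
        rw [SetLike.mem_coe, mem_cen]
        have h3 : x2⁻¹ * (x : Q) ∈ A := A.mul_mem (A.inv_mem hx2) x.2
        have h4 := (F1 hAn hab hAM hx2 h3 hx2M).1 (by rw [mul_inv_cancel_left]; exact h2)
        simpa using h4
    have h2 := (Set.ncard_le_ncard h1 (Set.toFinite _)).trans (Set.ncard_union_le _ _)
    rw [Set.ncard_univ, Set.ncard_image_of_injective _ (mul_right_injective _),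
      Set.ncard_image_of_injective _ (mul_right_injective _)] at h2
    exact h2
  have hi1 := (cen A a).card_mul_index
  have hi2 := (cen A h).card_mul_index
  have hidx : (cen A a).index = 2 := by
    have h1 : (cen A a).index ≠ 1 := fun h => hC1 (Subgroup.index_eq_one.1 h)
    have h2 : (cen A h).index ≠ 1 := fun h => hC2 (Subgroup.index_eq_one.1 h)
    have h3 : (cen A a).index ≠ 0 := Subgroup.FiniteIndex.index_ne_zero
    have h4 : (cen A h).index ≠ 0 := Subgroup.FiniteIndex.index_ne_zero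
    have h5 : 0 < Nat.card (cen A a) := Nat.card_pos
    have h6 : Nat.card (cen A h) * 2 ≤ Nat.card A := by
      rw [← hi2]
      exact Nat.mul_le_mul_left _ (by omega)
    have h7 : Nat.card (cen A a) * (cen A a).index ≤ Nat.card (cen A a) * 2 := by
      rw [hi1]
      omega
    have h8 := Nat.le_of_mul_le_mul_left h7 h5
    omega
  obtain ⟨v, hv⟩ : ∃ v : A, v ∉ cen A a := by
    by_contra h1
    push Not at h1
    exact hC1 ((Subgroup.eq_top_iff' _).2 h1)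
  have hv' : a * (v : Q) * a⁻¹ ∈ A := hAn.conj_mem _ v.2 _
  have hv2 : (⟨a * (v : Q) * a⁻¹, hv'⟩ : A) ∉ cen A a := by
    intro h1
    apply hv
    rw [mem_cen] at h1 ⊢
    have h2 : a * (a * (v : Q) * a⁻¹) = a * (v : Q) * a⁻¹ * a := h1
    have h3 : a * (v : Q) * a⁻¹ * a = a * v := by group
    rw [h3] at h2
    have h4 := mul_left_cancel h2
    calc a * (v : Q) = (a * (v : Q) * a⁻¹) * a := by group
      _ = v * a := by rw [h4]
  have hw : v⁻¹ * (⟨a * (v : Q) * a⁻¹, hv'⟩ : A) ∈ cen A a := by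
    rw [Subgroup.mul_mem_iff_of_index_two hidx, inv_mem_iff]
    exact ⟨fun h => absurd h hv, fun h => absurd h hv2⟩
  have hw2 := mem_cen.1 hw
  have h1 : ((v : Q)⁻¹ * (a * (v : Q) * a⁻¹)) = 1 := by
    refine F3 hq hr hqr (t := a) (v := (v : Q)) haq ?_ ?_ ?_
    · simpa using hw2
    · group
    · exact hpA _ (A.mul_mem (A.inv_mem v.2) hv')
  apply hv
  rw [mem_cen]
  have h2 : (v : Q) = a * v * a⁻¹ := inv_mul_eq_one.1 h1
  calc a * (v : Q) = (a * v * a⁻¹) * a := by group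
    _ = v * a := by rw [← h2]

/-- a common fixed point -/
theorem common [Finite Q] {r q : ℕ} (hr : r.Prime) (hq : q.Prime) (hqr : q ≠ r)
    (hpA : ∀ x ∈ A, ∃ k : ℕ, x ^ (r ^ k) = 1)
    (hAM : ∀ x ∈ A, x ∈ M → x = 1) (hL : ∀ y : Q, ∃ x ∈ A, x⁻¹ * y ∈ M)
    {a h : Q} (haq : a ^ q = 1) (hhq : h ^ q = 1) (hah : a * h = h * a) :
    ∃ o ∈ A, o⁻¹ * a * o ∈ M ∧ o⁻¹ * h * o ∈ M := by
  classical
  have : Fact q.Prime := ⟨hq⟩
  have : Fact r.Prime := ⟨hr⟩
  have hcard : ¬ q ∣ Nat.card (Q ⧸ M) := by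
    have hpg : IsPGroup r A := by
      intro x
      obtain ⟨k, hk⟩ := hpA x x.2
      exact ⟨k, Subtype.ext (by simpa using hk)⟩
    obtain ⟨n, hn⟩ := IsPGroup.iff_card.1 hpg
    have hb : Function.Bijective (fun x : A => ((x : Q) : Q ⧸ M)) := by
      constructor
      · intro x y hxy
        have h1 : (x : Q)⁻¹ * y ∈ M := QuotientGroup.eq.1 hxy
        have h2 := hAM _ (A.mul_mem (A.inv_mem x.2) y.2) h1
        exact Subtype.ext (inv_mul_eq_one.1 h2)
      · intro y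
        obtain ⟨y, rfl⟩ := QuotientGroup.mk_surjective y
        obtain ⟨x, hx, hm⟩ := hL y
        exact ⟨⟨x, hx⟩, QuotientGroup.eq.2 hm⟩
    rw [← Nat.card_eq_of_bijective _ hb, hn]
    intro h1
    have h2 := hq.dvd_of_dvd_pow h1
    exact hqr ((Nat.prime_dvd_prime_iff_eq hq hr).1 h2)
  have := Fintype.ofFinite (Q ⧸ M)
  have h1 : Nat.card (Q ⧸ M) ≡ Nat.card {x : Q ⧸ M // a • x = x} [MOD q] := by
    have hfq : (MulAction.toEndHom a : Function.End (Q ⧸ M)) ^ q ^ 1 = 1 := by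
      rw [pow_one, ← map_pow, haq, map_one]
    have h2 := Equiv.Perm.card_fixedPoints_modEq (p := q) hfq
    rw [Fintype.card_eq_nat_card, Fintype.card_eq_nat_card] at h2
    exact h2
  have hcard2 : ¬ q ∣ Fintype.card {x : Q ⧸ M // a • x = x} := by
    intro h2
    apply hcard
    rw [← Nat.card_eq_fintype_card] at h2
    exact (Nat.modEq_zero_iff_dvd.1 (h1.trans (Nat.modEq_zero_iff_dvd.2 h2)))
  have hiff : ∀ x : Q ⧸ M, a • (MulAction.toPerm h x) = MulAction.toPerm h x ↔ a • x = x := by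
    intro x
    change a • (h • x) = h • x ↔ a • x = x
    rw [← mul_smul, hah, mul_smul]
    constructor
    · intro h2
      exact MulAction.injective h h2
    · intro h2
      rw [h2]
  have hσ : ((MulAction.toPerm h : Perm (Q ⧸ M)).subtypePerm
      (p := fun x => a • x = x) hiff) ^ q ^ 1 = 1 := by
    rw [pow_one, Equiv.Perm.subtypePerm_pow]
    have h2 : (MulAction.toPerm h : Perm (Q ⧸ M)) ^ q = 1 := by
      rw [show (MulAction.toPerm h : Perm (Q ⧸ M)) = MulAction.toPermHom Q (Q ⧸ M) h from rfl,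
        ← map_pow, hhq, map_one]
    ext x
    change ((MulAction.toPerm h : Perm (Q ⧸ M)) ^ q) (x : Q ⧸ M) = x
    rw [h2]
    rfl
  obtain ⟨⟨x, hx⟩, hx2⟩ := Equiv.Perm.exists_fixed_point_of_prime hcard2 hσ
  have hx3 : h • x = x := congrArg Subtype.val hx2
  have hx4 : a • x = x := hx
  obtain ⟨y, rfl⟩ := QuotientGroup.mk_surjective x
  obtain ⟨o, ho, hm⟩ := hL y
  have hy : ((o : Q) : Q ⧸ M) = (y : Q ⧸ M) := QuotientGroup.eq.2 hm
  rw [← hy] at hx3 hx4
  refine ⟨o, ho, ?_, ?_⟩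
  · have h2 : ((o : Q) : Q ⧸ M) = ((a * o : Q) : Q ⧸ M) := hx4.symm
    have h3 := QuotientGroup.eq.1 h2
    rwa [← mul_assoc] at h3
  · have h2 : ((o : Q) : Q ⧸ M) = ((h * o : Q) : Q ⧸ M) := hx3.symm
    have h3 := QuotientGroup.eq.1 h2
    rwa [← mul_assoc] at h3

/-- the elements `a` and `h * a ^ κ` -/
def tt {Q : Type} [Group Q] (a h : Q) (q : ℕ) : Option (Fin q) → Q :=
  fun i => i.elim a (fun κ => h * a ^ (κ : ℕ))

theorem tt_mem {C : Subgroup Q} {a h : Q} (ha : a ∈ C) (hh : h ∈ C) (q : ℕ)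
    (i : Option (Fin q)) : tt a h q i ∈ C := by
  cases i with
  | none => exact ha
  | some κ => exact C.mul_mem hh (C.pow_mem ha _)

theorem tt_two {C : Subgroup Q} {a h : Q} {q : ℕ} (hq : q.Prime) (haq : a ^ q = 1)
    {i j : Option (Fin q)} (hij : i ≠ j) (hi : tt a h q i ∈ C) (hj : tt a h q j ∈ C) :
    a ∈ C ∧ h ∈ C := by
  have key : ∀ κ : Fin q, a ∈ C → tt a h q (some κ) ∈ C → a ∈ C ∧ h ∈ C := by
    intro κ ha hκ
    refine ⟨ha, ?_⟩
    have h1 : h = (h * a ^ (κ : ℕ)) * (a ^ (κ : ℕ))⁻¹ := by group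
    rw [h1]
    exact C.mul_mem hκ (C.inv_mem (C.pow_mem ha _))
  have key2 : ∀ κ κ' : Fin q, (κ : ℕ) < κ' → tt a h q (some κ) ∈ C →
      tt a h q (some κ') ∈ C → a ∈ C ∧ h ∈ C := by
    intro κ κ' hlt h1 h2
    refine key κ ?_ h1
    have h3 : a ^ ((κ' : ℕ) - κ) ∈ C := by
      have h4 : a ^ ((κ' : ℕ) - κ) = (h * a ^ (κ : ℕ))⁻¹ * (h * a ^ (κ' : ℕ)) := by
        rw [mul_inv_rev, mul_assoc, inv_mul_cancel_left, eq_inv_mul_iff_mul_eq, ← pow_add]
        congr 1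
        omega
      rw [h4]
      exact C.mul_mem (C.inv_mem h1) h2
    have hcop : Nat.Coprime ((κ' : ℕ) - κ) q := by
      refine (Nat.Coprime.symm ((Nat.Prime.coprime_iff_not_dvd hq).2 fun hd => ?_))
      have h5 := Nat.le_of_dvd (by omega) hd
      have h6 := κ'.2
      omega
    obtain ⟨m, -, hm⟩ := Nat.exists_mul_mod_eq_one_of_coprime hcop hq.one_lt
    have h7 : a ^ (((κ' : ℕ) - κ) * m) = a := by
      conv_lhs => rw [← Nat.div_add_mod (((κ' : ℕ) - κ) * m) q, pow_add, pow_mul, haq, one_pow,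
        one_mul, hm, pow_one]
    rw [← h7, pow_mul]
    exact C.pow_mem h3 m
  match i, j, hij, hi, hj with
  | none, none, hij, _, _ => exact absurd rfl hij
  | none, some κ, _, hi, hj => exact key κ hi hj
  | some κ, none, _, hi, hj => exact key κ hj hi
  | some κ, some κ', hij, hi, hj =>
    rcases lt_trichotomy (κ : ℕ) κ' with h1 | h1 | h1
    · exact key2 κ κ' h1 hi hj
    · exact absurd (congrArg some (Fin.ext h1)) hij
    · exact key2 κ' κ h1 hj hi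

/-- case 3 -/
theorem C3 [Finite Q] {r q : ℕ} (hr : r.Prime) (hq : q.Prime) (hqr : q ≠ r)
    (hAn : A.Normal) (hab : ∀ x ∈ A, ∀ y ∈ A, x * y = y * x)
    (hpA : ∀ x ∈ A, ∃ k : ℕ, x ^ (r ^ k) = 1)
    (hAM : ∀ x ∈ A, x ∈ M → x = 1) (hL : ∀ y : Q, ∃ x ∈ A, x⁻¹ * y ∈ M)
    (hcore : ∀ t : Q, (∀ x, x⁻¹ * t * x ∈ M) → t = 1) {a h : Q} (haq : a ^ q = 1)
    (hhq : h ^ q = 1) (hah : a * h = h * a)
    (hcov : ∀ x : Q, x⁻¹ * a * x ∈ M ∨ ∃ κ < q, x⁻¹ * (h * a ^ κ) * x ∈ M) :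
    a = 1 ∨ ∃ κ < q, h * a ^ κ = 1 := by
  by_contra hcon
  push Not at hcon
  obtain ⟨ha1, hh1⟩ := hcon
  obtain ⟨o, ho, hoa, hoh⟩ := common hr hq hqr hpA hAM hL haq hhq hah
  have hcomm : Commute a h := hah
  set t : Option (Fin q) → Q := tt a h q with ht
  have ht1 : ∀ i, t i ≠ 1 := by
    intro i
    cases i with
    | none => exact ha1
    | some κ => exact hh1 κ κ.2
  have htq : ∀ i, t i ^ q = 1 := by
    intro i
    cases i with
    | none => exact haq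
    | some κ =>
      change (h * a ^ (κ : ℕ)) ^ q = 1
      rw [((hcomm.pow_left _).symm).mul_pow, hhq, one_mul, ← pow_mul, mul_comm, pow_mul, haq,
        one_pow]
  have haz : ∀ j, a ∈ Subgroup.centralizer ({t j} : Set Q) := by
    intro j
    rw [Subgroup.mem_centralizer_singleton_iff]
    cases j with
    | none => rfl
    | some κ => exact (hcomm.mul_right (Commute.self_pow a _)).eq
  have hhz : ∀ j, h ∈ Subgroup.centralizer ({t j} : Set Q) := by
    intro j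
    rw [Subgroup.mem_centralizer_singleton_iff]
    cases j with
    | none => exact hah.symm
    | some κ => exact ((Commute.refl h).mul_right (hcomm.symm.pow_right _)).eq
  have htt : ∀ i j, t i * t j = t j * t i := fun i j =>
    Subgroup.mem_centralizer_singleton_iff.1 (tt_mem (haz j) (hhz j) q i)
  have hfix : ∀ i, o⁻¹ * t i * o ∈ M := by
    intro i
    have h1 : t i ∈ M.map (MulAut.conj o).toMonoidHom := by
      refine tt_mem ?_ ?_ q i
      · exact Subgroup.mem_map.2 ⟨_, hoa, by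
          change o * (o⁻¹ * a * o) * o⁻¹ = a
          group⟩
      · exact Subgroup.mem_map.2 ⟨_, hoh, by
          change o * (o⁻¹ * h * o) * o⁻¹ = h
          group⟩
    obtain ⟨m, hm, hm2⟩ := Subgroup.mem_map.1 h1
    have h2 : o * m * o⁻¹ = t i := hm2
    have h3 : o⁻¹ * t i * o = m := by rw [← h2]; group
    rw [h3]
    exact hm
  have hcov2 : ∀ x ∈ A, ∃ i, t i * x = x * t i := by
    intro x hx
    rcases hcov (o * x) with h1 | ⟨κ, hκ, h1⟩
    · exact ⟨none, (F1 hAn hab hAM ho hx (hfix none)).1 h1⟩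
    · exact ⟨some ⟨κ, hκ⟩, (F1 hAn hab hAM ho hx (hfix (some ⟨κ, hκ⟩))).1 h1⟩
  have hnc : ∀ i, ∃ v ∈ A, t i * v ≠ v * t i := by
    intro i
    by_contra h1
    push Not at h1
    exact ht1 i (F2 hAn hab hAM hL hcore ho (hfix i) h1)
  -- the pair property
  have hpair : ∀ i j, i ≠ j → ∀ w : Q, t i * w = w * t i → t j * w = w * t j →
      ∀ k, t k * w = w * t k := by
    intro i j hij w hi hj k
    have h1 := tt_two hq haq (C := Subgroup.centralizer ({w} : Set Q)) hij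
      (Subgroup.mem_centralizer_singleton_iff.2 hi) (Subgroup.mem_centralizer_singleton_iff.2 hj)
    exact Subgroup.mem_centralizer_singleton_iff.1 (tt_mem h1.1 h1.2 q k)
  obtain ⟨v1, hv1, hv1a⟩ := hnc none
  obtain ⟨i1, hi1⟩ := hcov2 v1 hv1
  obtain ⟨v2, hv2, hv2a⟩ := hnc i1
  obtain ⟨i2, hi2⟩ := hcov2 v2 hv2
  obtain ⟨i3, hi3⟩ := hcov2 (v1 * v2) (A.mul_mem hv1 hv2)
  have h21 : i1 ≠ i2 := by
    rintro rfl
    exact hv2a hi2
  have h31 : i1 ≠ i3 := by
    rintro rfl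
    apply hv2a
    have h1 : t i1 * (v1 * v2) = v1 * (t i1 * v2) := by
      rw [← mul_assoc, hi1, mul_assoc]
    rw [h1, mul_assoc] at hi3
    exact mul_left_cancel hi3
  set w : Q := v1⁻¹ * (t i3 * v1 * (t i3)⁻¹) with hw
  have hc1 : t i3 * v1 * (t i3)⁻¹ ∈ A := hAn.conj_mem _ hv1 _
  have hc2 : t i3 * v2 * (t i3)⁻¹ ∈ A := hAn.conj_mem _ hv2 _
  have hw2 : w = v2 * (t i3 * v2 * (t i3)⁻¹)⁻¹ := by
    rw [hw, inv_mul_eq_iff_eq_mul, ← mul_assoc, eq_mul_inv_iff_mul_eq]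
    calc t i3 * v1 * (t i3)⁻¹ * (t i3 * v2 * (t i3)⁻¹) = t i3 * (v1 * v2) * (t i3)⁻¹ := by group
      _ = v1 * v2 := by rw [hi3]; group
  have hw1 : t i1 * w = w * t i1 := by
    have h1 : Commute (t i1) v1 := hi1
    have h2 : Commute (t i1) (t i3) := htt _ _
    exact (h1.inv_right.mul_right ((h2.mul_right h1).mul_right h2.inv_right)).eq
  have hw3 : t i2 * w = w * t i2 := by
    have h1 : Commute (t i2) v2 := hi2
    have h2 : Commute (t i2) (t i3) := htt _ _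
    rw [hw2]
    exact (h1.mul_right ((h2.mul_right h1).mul_right h2.inv_right).inv_right).eq
  have hw4 := hpair i1 i2 h21 w hw1 hw3 i3
  have hw5 : w = 1 := by
    refine F3 hq hr hqr (t := t i3) (v := v1) (htq i3) hw4 ?_
      (hpA _ (A.mul_mem (A.inv_mem hv1) hc1))
    rw [hw]
    group
  have hv3 : t i3 * v1 = v1 * t i3 := by
    rw [hw] at hw5
    have h1 := inv_mul_eq_one.1 hw5
    calc t i3 * v1 = (t i3 * v1 * (t i3)⁻¹) * t i3 := by group
      _ = v1 * t i3 := by rw [← h1]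
  exact hv1a (hpair i1 i3 h31 v1 hi1 hv3 none)

/-- all cases -/
theorem main [Finite Q] {r q p : ℕ} (hr : r.Prime) (hq : q.Prime) (hp : p.Prime)
    (hqr : q ≠ r)
    (hAn : A.Normal) (hab : ∀ x ∈ A, ∀ y ∈ A, x * y = y * x)
    (hpA : ∀ x ∈ A, ∃ k : ℕ, x ^ (r ^ k) = 1)
    (hAM : ∀ x ∈ A, x ∈ M → x = 1) (hL : ∀ y : Q, ∃ x ∈ A, x⁻¹ * y ∈ M)
    (hcore : ∀ t : Q, (∀ x, x⁻¹ * t * x ∈ M) → t = 1) {a h : Q} (haq : a ^ q = 1)
    (hhp : h ^ p = 1 ∨ (p = q ∧ h ^ q = a)) (hah : a * h = h * a)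
    (hcov : ∀ x : Q, x⁻¹ * a * x ∈ M ∨ ∃ κ < q, x⁻¹ * (h * a ^ κ) * x ∈ M) :
    a = 1 ∨ ∃ κ < q, h * a ^ κ = 1 := by
  have hcomm : Commute a h := hah
  have hpw : ∀ x : Q, ∀ κ : ℕ, x⁻¹ * (h * a ^ κ) * x ∈ M → x⁻¹ * h ^ q * x ∈ M := by
    intro x κ h1
    have h2 := M.pow_mem h1 q
    have h3 : (x⁻¹ * (h * a ^ κ) * x) ^ q = x⁻¹ * h ^ q * x := by
      have h4 := conj_pow (i := q) (a := x⁻¹) (b := h * a ^ κ)
      rw [inv_inv] at h4
      rw [h4, ((hcomm.pow_left _).symm).mul_pow, ← pow_mul, mul_comm κ q, pow_mul, haq,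
        one_pow, mul_one]
    rw [← h3]
    exact h2
  rcases hhp with hhp | ⟨hpq, hha⟩
  · by_cases hpq : p = q
    · subst hpq
      exact C3 hr hq hqr hAn hab hpA hAM hL hcore haq hhp hah hcov
    · have hcov2 : ∀ x ∈ A, x⁻¹ * a * x ∈ M ∨ x⁻¹ * h * x ∈ M := by
        intro x _
        rcases hcov x with h1 | ⟨κ, -, h1⟩
        · exact Or.inl h1
        · right
          have h2 := hpw x κ h1
          obtain ⟨m, -, hm⟩ := Nat.exists_mul_mod_eq_one_of_coprime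
            ((Nat.coprime_primes hq hp).2 fun h => hpq h.symm) hp.one_lt
          have h3 : h ^ (q * m) = h := by
            conv_lhs => rw [← Nat.div_add_mod (q * m) p, pow_add, pow_mul, hhp, one_pow,
              one_mul, hm, pow_one]
          have h4 := M.pow_mem h2 m
          have h5 : (x⁻¹ * h ^ q * x) ^ m = x⁻¹ * h * x := by
            have h6 := conj_pow (i := m) (a := x⁻¹) (b := h ^ q)
            rw [inv_inv] at h6
            rw [h6, ← pow_mul, h3]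
          rw [← h5]
          exact h4
      rcases C2 hr hq hqr hAn hab hpA hAM hL hcore haq hcov2 with h1 | h1
      · exact Or.inl h1
      · exact Or.inr ⟨0, hq.pos, by rw [pow_zero, mul_one, h1]⟩
  · left
    apply hcore
    intro x
    rcases hcov x with h1 | ⟨κ, -, h1⟩
    · exact h1
    · have := hpw x κ h1
      rwa [hha] at this

end core

theorem pf_af2 : T_AF2 := by
  intro L _ _ M A r hr hAn hab hpA hCA hAM hL q p a h hq _ hp hqr haq hah hhp hcov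
  set C := M.normalCore with hC
  have hCn : C.Normal := Subgroup.normalCore_normal M
  have hCM : C ≤ M := Subgroup.normalCore_le M
  set π := QuotientGroup.mk' C with hπ
  have hπs : Function.Surjective π := QuotientGroup.mk'_surjective C
  have hπ1 : ∀ x : L, π x = 1 ↔ x ∈ C := fun x => QuotientGroup.eq_one_iff x
  have hMmem : ∀ x : L, π x ∈ M.map π ↔ x ∈ M := by
    intro x
    constructor
    · intro h1
      obtain ⟨m, hm, hmx⟩ := Subgroup.mem_map.1 h1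
      have h2 : m⁻¹ * x ∈ C := by
        rw [← hπ1, map_mul, map_inv, hmx, inv_mul_cancel]
      have h3 := M.mul_mem hm (hCM h2)
      rwa [mul_inv_cancel_left] at h3
    · exact fun h1 => Subgroup.mem_map_of_mem π h1
  have hfin : Finite (L ⧸ C) := inferInstance
  have hres : π a = 1 ∨ ∃ κ < q, π h * π a ^ κ = 1 := by
    refine main (M := M.map π) (A := A.map π) hr hq hp hqr (hAn.map π hπs) ?_ ?_ ?_ ?_ ?_
      (by rw [← map_pow, haq, map_one]) ?_ (by rw [← map_mul, hah, map_mul]) ?_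
    · rintro _ ⟨x, hx, rfl⟩ _ ⟨y, hy, rfl⟩
      have h1 := (hπ1 _).2 (hab x hx y hy)
      rw [map_mul, map_mul, map_mul, map_inv, map_inv, mul_inv_eq_one, mul_inv_eq_iff_eq_mul] at h1
      exact h1
    · rintro _ ⟨x, hx, rfl⟩
      obtain ⟨k, hk⟩ := hpA x hx
      exact ⟨k, by rw [← map_pow]; exact (hπ1 _).2 hk⟩
    · rintro _ ⟨x, hx, rfl⟩ hxM
      exact (hπ1 x).2 (hAM x hx ((hMmem x).1 hxM))
    · intro y
      obtain ⟨y, rfl⟩ := hπs y
      obtain ⟨x, hx, hm⟩ := hL y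
      exact ⟨π x, Subgroup.mem_map_of_mem π hx, by
        rw [← map_inv, ← map_mul]; exact Subgroup.mem_map_of_mem π hm⟩
    · intro t htx
      obtain ⟨t, rfl⟩ := hπs t
      rw [hπ1, hC]
      intro y
      have h1 := htx (π y⁻¹)
      rw [← map_inv, ← map_mul, ← map_mul, hMmem, inv_inv] at h1
      exact h1
    · rcases hhp with h1 | ⟨h1, h2⟩
      · exact Or.inl (by rw [← map_pow, h1, map_one])
      · exact Or.inr ⟨h1, by rw [← map_pow, h2]⟩
    · intro x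
      obtain ⟨x, rfl⟩ := hπs x
      rcases hcov x with h1 | ⟨κ, hκ, h1⟩
      · left
        rw [← map_inv, ← map_mul, ← map_mul]
        exact Subgroup.mem_map_of_mem π h1
      · refine Or.inr ⟨κ, hκ, ?_⟩
        rw [← map_inv, ← map_pow, ← map_mul, ← map_mul, ← map_mul]
        exact Subgroup.mem_map_of_mem π h1
  rcases hres with h1 | ⟨κ, hκ, h1⟩
  · exact Or.inl ((hπ1 a).1 h1)
  · refine Or.inr ⟨κ, hκ, (hπ1 _).1 ?_⟩
    rw [map_mul, map_pow]
    exact h1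

end Pool.Agent.H21.NY.AF2
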