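import Pool.Agent.H11.NY.Targets

/-!
# Module GU of the board ny_modules (MP_9b2842_al)
-/

set_option autoImplicit false

open Equiv (Perm)

namespace Pool.Agent.H21.NY.GU

open Pool.Agent.H11.NY

section gen

variable {G : Type} [Group G] {π : Finset ℕ}

theorem finOrd (hC : PCover G π) (x : G) : IsOfFinOrder x := by
  obtain ⟨L, n, φ, hgood, -, hF, -⟩ := hC {x} 0
  have := hgood.1
  have hx : x ∈ L := hF x (Finset.mem_singleton_self x)
  have h1 : IsOfFinOrder (⟨x, hx⟩ : L) := isOfFinOrder_of_finite _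
  exact Submonoid.isOfFinOrder_coe.2 h1

theorem exists_ord (hC : PCover G π) (q : ℕ) (hq : q.Prime) (hq2 : q ≠ 2) :
    ∃ x : G, orderOf x = q := by
  obtain ⟨L, n, φ, ⟨hfin, hsurj, -⟩, -, -, hn⟩ := hC ∅ q
  have := hfin
  have : Fact q.Prime := ⟨hq⟩
  have : Nontrivial (Fin n) := Fin.nontrivial_iff_two_le.2 (hq.two_le.trans hn)
  have h1 : 2 * Nat.card (alternatingGroup (Fin n)) = n.factorial := by
    rw [two_mul_nat_card_alternatingGroup, Nat.card_perm, Nat.card_fin]
  have h2 : q ∣ Nat.card (alternatingGroup (Fin n)) := by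
    have h3 : q ∣ 2 * Nat.card (alternatingGroup (Fin n)) := by
      rw [h1]
      exact hq.dvd_factorial.2 hn
    exact ((Nat.coprime_primes hq Nat.prime_two).2 hq2).dvd_of_dvd_mul_left h3
  obtain ⟨x, hx⟩ := exists_prime_orderOf_dvd_card' q
    (h2.trans (Subgroup.card_dvd_of_surjective φ hsurj))
  exact ⟨x, by rw [Subgroup.orderOf_coe, hx]⟩

/-- the centralizer in a subgroup maps into the centralizer in the group -/
def cj (L : Subgroup G) (g : G) (hg : g ∈ L) :
    Subgroup.centralizer ({(⟨g, hg⟩ : L)} : Set L) →* Subgroup.centralizer ({g} : Set G) :=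
  (L.subtype.comp (Subgroup.centralizer ({(⟨g, hg⟩ : L)} : Set L)).subtype).codRestrict _
    (fun x => by
      rw [Subgroup.mem_centralizer_iff]
      intro y hy
      rw [Set.mem_singleton_iff] at hy
      subst hy
      exact congrArg (fun z : L => (z : G)) (Subgroup.mem_centralizer_iff.1 x.2 _ rfl))

theorem cj_inj (L : Subgroup G) (g : G) (hg : g ∈ L) : Function.Injective (cj L g hg) := by
  intro x y h
  exact Subtype.ext (Subtype.ext (congrArg (fun z : Subgroup.centralizer ({g} : Set G) =>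
    (z : G)) h))

end gen

theorem pf_gu : T_FL → T_GK → T_GW → T_GS → T_GU := by
  classical
  intro hFL hGK hGW hGS G _ _ π hC hU hAS
  -- pairs for every large prime
  have key : ∀ q : ℕ, (q.Prime ∧ 5 ≤ q ∧ q ∉ π) → ∃ (p : ℕ) (a h : G) (P : Subgroup G),
      p.Prime ∧ APair q p a h P := by
    rintro q ⟨hq, hq5, -⟩
    obtain ⟨a, ha⟩ := exists_ord hC q hq (by omega)
    have haq : a ^ q = 1 := by rw [← ha]; exact pow_orderOf_eq_one a
    have ha1 : a ≠ 1 := by
      rintro rfl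
      rw [orderOf_one] at ha
      omega
    have hcinf : Infinite (Subgroup.centralizer ({a} : Set G)) := by
      by_contra hfin
      rw [not_infinite_iff_finite] at hfin
      obtain ⟨F, k, hFk⟩ := hU a ha1 (q * Nat.card (Subgroup.centralizer ({a} : Set G)))
      obtain ⟨L, n, φ, hgood, -, hF, hk⟩ := hC (insert a F) k
      have haL : a ∈ L := hF a (Finset.mem_insert_self _ _)
      have := hgood.1
      have h1 := hGK L (Fin n) φ q hgood.2.1 hq (by omega) ⟨a, haL⟩ (Subtype.ext haq)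
      have h2 := hFk L n φ hgood (fun y hy => hF y (Finset.mem_insert_of_mem hy)) hk haL
      have h3 : Nat.card (Subgroup.centralizer ({(⟨a, haL⟩ : L)} : Set L)) ≤
          Nat.card (Subgroup.centralizer ({a} : Set G)) :=
        Nat.card_le_card_of_injective _ (cj_inj L a haL)
      exact absurd (h1.trans (Nat.mul_le_mul_left q h3)) (not_le.2 h2)
    obtain ⟨H, hHi, hHs⟩ := hAS a ha1
    have hper : ∀ x : G, ∃ k : ℕ, 0 < k ∧ x ^ k = 1 := fun x =>
      (isOfFinOrder_iff_pow_eq_one.1 (finOrd hC x))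
    obtain ⟨p, h, P, hp, hAP⟩ := hGW G q a hq haq ha1 hper H hHi hHs hcinf
    exact ⟨p, a, h, P, hp, hAP⟩
  choose! p a h P hp using key
  obtain ⟨q, hqi, hq, hpp⟩ := hGS π p
  have hA : ∀ i, (p (q i)).Prime ∧ APair (q i) (p (q i)) (a (q i)) (h (q i)) (P (q i)) :=
    fun i => hp (q i) (hq i)
  -- the bound e
  obtain ⟨e, heq, hep⟩ : ∃ e : ℕ, (∀ i, q i ≤ e) ∧ ∀ i, p (q i) ≤ e := by
    refine ⟨∑ i, q i + ∑ i, p (q i), fun i => ?_, fun i => ?_⟩
    · exact (Finset.single_le_sum (f := q) (fun _ _ => Nat.zero_le _)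
        (Finset.mem_univ i)).trans (Nat.le_add_right _ _)
    · exact (Finset.single_le_sum (f := fun i => p (q i)) (fun _ _ => Nat.zero_le _)
        (Finset.mem_univ i)).trans (Nat.le_add_left _ _)
  -- the prime
  obtain ⟨ℓ, hℓgt, hℓ⟩ := Nat.exists_infinite_primes (π.sup id + e + 5)
  have hℓπ : ℓ ∉ π := fun hp => by
    have : ℓ ≤ π.sup id := Finset.le_sup (f := id) hp
    omega
  have hℓp : ∀ i, p (q i) ≠ ℓ := fun i => by
    have := hep i
    omega
  obtain ⟨g, hg⟩ := exists_ord hC ℓ hℓ (by omega)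
  have hgℓ : g ^ ℓ = 1 := by rw [← hg]; exact pow_orderOf_eq_one g
  have hg1 : g ≠ 1 := by
    rintro rfl
    rw [orderOf_one] at hg
    omega
  obtain ⟨Hg, hHgi, hHgs⟩ := hAS g hg1
  set Sg := Hg.normalCore with hSg
  have : Hg.FiniteIndex := ⟨hHgi⟩
  have hSgi : Sg.index ≠ 0 := Subgroup.FiniteIndex.index_ne_zero
  have hSgn : Sg.Normal := Subgroup.normalCore_normal Hg
  have hSgs : Group.IsSolvable Sg := by
    have := hHgs
    exact Group.isSolvable_of_isSolvable_injective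
      (f := Subgroup.inclusion Hg.normalCore_le) (Subgroup.inclusion_injective _)
  obtain ⟨c, hc5, hce, hcm⟩ : ∃ c : ℕ, 5 ≤ c ∧ e ≤ c ∧ 2 * Sg.index < c :=
    ⟨5 + e + 2 * Sg.index, by omega, by omega, by omega⟩
  obtain ⟨B, hB⟩ := hFL e c
  -- the finitely many elements
  have hUx : ∀ x : G, ∃ (F : Finset G) (k : ℕ), x ≠ 1 → ∀ (L : Subgroup G) (n : ℕ)
      (φ : L →* alternatingGroup (Fin n)), SGood π L n φ → (∀ y ∈ F, y ∈ L) → k ≤ n →
        ∀ hx : x ∈ L, B < (φ ⟨x, hx⟩ : Perm (Fin n)).support.card := by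
    intro x
    by_cases hx : x = 1
    · exact ⟨∅, 0, fun h => absurd hx h⟩
    · obtain ⟨F, k, hFk⟩ := hU x hx B
      exact ⟨F, k, fun _ => hFk⟩
  choose F k hFk using hUx
  set T : Finset G := Finset.univ.biUnion fun i : Fin 4 =>
    ((Finset.range (q i)) ×ˢ (Finset.range (orderOf (h (q i))))).image
      (fun jk => a (q i) ^ jk.1 * h (q i) ^ jk.2) with hT
  have hmemT : ∀ (i : Fin 4) (j l : ℕ), a (q i) ^ j * h (q i) ^ l ∈ T := by
    intro i j l
    rw [hT, Finset.mem_biUnion]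
    refine ⟨i, Finset.mem_univ _, ?_⟩
    rw [Finset.mem_image]
    have ho : 0 < orderOf (h (q i)) := (finOrd hC _).orderOf_pos
    refine ⟨(j % q i, l % orderOf (h (q i))), ?_, ?_⟩
    · rw [Finset.mem_product, Finset.mem_range, Finset.mem_range]
      exact ⟨Nat.mod_lt _ (hq i).1.pos, Nat.mod_lt _ ho⟩
    · have h1 : a (q i) ^ j = a (q i) ^ (j % q i) := by
        conv_lhs => rw [← Nat.div_add_mod j (q i), pow_add, pow_mul, (hA i).2.1, one_pow, one_mul]
      have h2 : h (q i) ^ l = h (q i) ^ (l % orderOf (h (q i))) := (pow_mod_orderOf _ _).symm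
      rw [h1, h2]
  obtain ⟨Fg, kg, hFkg⟩ := hU g hg1 (ℓ * c)
  obtain ⟨L, n, φ, hgood, hperf, hF, hk⟩ := hC (T.biUnion F ∪ Fg ∪
    (Finset.univ.image fun i : Fin 4 => a (q i)) ∪
    (Finset.univ.image fun i : Fin 4 => h (q i)) ∪ {g}) (T.sup k + kg)
  have haL : ∀ i, a (q i) ∈ L := fun i => hF _ (by simp)
  have hhL : ∀ i, h (q i) ∈ L := fun i => hF _ (by simp)
  have hgL : g ∈ L := hF g (by simp)
  have hFx : ∀ x ∈ T, ∀ y ∈ F x, y ∈ L := fun x hx y hy => hF y (by
    simp only [Finset.mem_union, Finset.mem_biUnion]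
    exact Or.inl (Or.inl (Or.inl (Or.inl ⟨x, hx, hy⟩))))
  have hkx : ∀ x ∈ T, k x ≤ n := fun x hx => by
    have := Finset.le_sup (f := k) hx
    omega
  have hsg : ℓ * c ≤ (φ ⟨g, hgL⟩ : Perm (Fin n)).support.card :=
    (hFkg L n φ hgood (fun y hy => hF y (by simp [hy])) (by omega) hgL).le
  have hHP : ∀ i, HPair φ e B (q i) (p (q i)) ⟨a (q i), haL i⟩ ⟨h (q i), hhL i⟩ := by
    intro i
    obtain ⟨hpi, haq, ha1, hPa, hPn, hPp, hhP, hhz, hhp⟩ := hA i
    refine ⟨(hq i).1, (hq i).2.1, heq i, hpi, hep i, Subtype.ext haq,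
      Subtype.ext (hPa _ hhP), ?_, ?_, ?_, ?_⟩
    · rcases hhp with h1 | ⟨h1, h2⟩
      · exact Or.inl (Subtype.ext h1)
      · exact Or.inr ⟨h1, Subtype.ext h2⟩
    · intro h1
      exact ha1 (congrArg (fun z : L => (z : G)) h1)
    · intro h1
      apply hhz
      obtain ⟨z, hz⟩ := Subgroup.mem_zpowers_iff.1 h1
      exact Subgroup.mem_zpowers_iff.2 ⟨z, by
        have := congrArg (fun z : L => (z : G)) hz
        simpa using this⟩
    · intro j l hjl
      have h0 : a (q i) ^ j * h (q i) ^ l ≠ 1 := by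
        intro h1
        apply hjl
        apply Subtype.ext
        simpa using h1
      have h1 := hFk _ h0 L n φ hgood (hFx _ (hmemT i j l)) (hkx _ (hmemT i j l))
        (L.mul_mem (L.pow_mem (haL i) j) (L.pow_mem (hhL i) l))
      exact h1.le
  obtain ⟨hfin, hsurj, d, hd⟩ := hgood
  have := hfin
  have hfinal := hB L (Fin n) φ π d hsurj hperf hd q (fun i => p (q i))
    (fun i => ⟨a (q i), haL i⟩) (fun i => ⟨h (q i), hhL i⟩)
    (fun i => (P (q i)).subgroupOf L) hHP (fun i => (hq i).2.2) hqi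
    (fun i x hx => Subtype.ext ((hA i).2.2.2.1 _ (Subgroup.mem_subgroupOf.1 hx)))
    (fun i x hx y hy => by
      rw [Subgroup.mem_subgroupOf] at hy ⊢
      exact (hA i).2.2.2.2.1 x (congrArg (fun z : L => (z : G)) hx) y hy)
    (fun i x hx => by
      obtain ⟨k, hk⟩ := (hA i).2.2.2.2.2.1 _ (Subgroup.mem_subgroupOf.1 hx)
      exact ⟨k, Subtype.ext (by simpa using hk)⟩)
    (fun i => Subgroup.mem_subgroupOf.2 (hA i).2.2.2.2.2.2.1)
    hpp ⟨g, hgL⟩ ℓ hℓ hℓπ hℓp (Subtype.ext hgℓ) hc5 hce hsg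
  set j := cj L g hgL with hj
  have hjs : Group.IsSolvable (Sg.comap j) := by
    have := hSgs
    refine Group.isSolvable_of_isSolvable_injective (f := j.subgroupComap Sg) ?_
    intro x y hxy
    have h1 : j x = j y := congrArg (fun z : Sg => (z : Subgroup.centralizer ({g} : Set G))) hxy
    exact Subtype.ext (cj_inj L g hgL h1)
  have hfin2 := hfinal (Sg.comap j) (hSgn.comap j) hjs
  have h1 : (Sg.comap j).index ≤ Sg.index := by
    rw [Subgroup.index_comap]
    exact Nat.le_of_dvd (Nat.pos_of_ne_zero hSgi) (Subgroup.relIndex_dvd_index_of_normal _ _)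
  have h2 := Nat.self_le_factorial c
  omega

end Pool.Agent.H21.NY.GU
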